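import Pool.Agent.Helper3.TG.GoalsTr

/-!
# Project TG (MP_a41896_nt), packet TG-HVM: products and renaming of forms
-/

set_option autoImplicit false

open MvPolynomial

namespace Pool.Agent.Helper99.TG.HVM

open Pool.Agent.Helper5.UN (hv)

section one

variable {R S : Type} [CommRing R] [CommRing S] (φ : R →+* S) {σ : Type} [Fintype σ]

/-- the value of a monomial -/
def T (E : σ → ℕ) (y : σ → Fin 2 → S) (m : σ →₀ ℕ) : S :=
  ∏ i, (y i 0 ^ m i * y i 1 ^ (E i - m i))

theorem hv_sub (E : σ → ℕ) (f : MvPolynomial σ R) (y : σ → Fin 2 → S) (s : Finset (σ →₀ ℕ))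
    (hs : f.support ⊆ s) : hv φ E f y = ∑ m ∈ s, φ (coeff m f) * T E y m := by
  unfold hv T
  refine Finset.sum_subset hs fun m _ hm => ?_
  rw [notMem_support_iff.1 hm, map_zero, zero_mul]

theorem hv_add (E : σ → ℕ) (f g : MvPolynomial σ R) (y : σ → Fin 2 → S) :
    hv φ E (f + g) y = hv φ E f y + hv φ E g y := by
  classical
  rw [hv_sub φ E (f + g) y (f.support ∪ g.support) support_add,
    hv_sub φ E f y (f.support ∪ g.support) Finset.subset_union_left,
    hv_sub φ E g y (f.support ∪ g.support) Finset.subset_union_right, ← Finset.sum_add_distrib]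
  refine Finset.sum_congr rfl fun m _ => ?_
  rw [coeff_add, map_add, add_mul]

theorem hv_zero (E : σ → ℕ) (y : σ → Fin 2 → S) : hv φ E (0 : MvPolynomial σ R) y = 0 := by
  unfold hv
  rw [support_zero, Finset.sum_empty]

/-- `hv` as an additive homomorphism -/
def hvH (E : σ → ℕ) (y : σ → Fin 2 → S) : MvPolynomial σ R →+ S where
  toFun f := hv φ E f y
  map_zero' := hv_zero φ E y
  map_add' f g := hv_add φ E f g y

theorem hv_sum (E : σ → ℕ) (y : σ → Fin 2 → S) {ι : Type} (s : Finset ι)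
    (f : ι → MvPolynomial σ R) : hv φ E (∑ j ∈ s, f j) y = ∑ j ∈ s, hv φ E (f j) y :=
  map_sum (hvH φ E y) f s

theorem hv_mono (E : σ → ℕ) (y : σ → Fin 2 → S) (m : σ →₀ ℕ) (c : R) :
    hv φ E (monomial m c) y = φ c * T E y m := by
  classical
  rw [hv_sub φ E (monomial m c) y {m} support_monomial_subset, Finset.sum_singleton,
    coeff_monomial, if_pos rfl]

theorem T_add (E E' : σ → ℕ) (y : σ → Fin 2 → S) (m n : σ →₀ ℕ) (hm : ∀ i, m i ≤ E i)
    (hn : ∀ i, n i ≤ E' i) : T (fun i => E i + E' i) y (m + n) = T E y m * T E' y n := by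
  unfold T
  rw [← Finset.prod_mul_distrib]
  refine Finset.prod_congr rfl fun i _ => ?_
  have h1 : E i + E' i - (m + n) i = (E i - m i) + (E' i - n i) := by
    rw [Finsupp.add_apply]
    have := hm i
    have := hn i
    omega
  rw [h1, Finsupp.add_apply, pow_add, pow_add]
  ring

theorem hv_mul (E E' : σ → ℕ) (f g : MvPolynomial σ R) (y : σ → Fin 2 → S)
    (hf : ∀ i, degreeOf i f ≤ E i) (hg : ∀ i, degreeOf i g ≤ E' i) :
    hv φ (fun i => E i + E' i) (f * g) y = hv φ E f y * hv φ E' g y := by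
  classical
  have e1 : f * g = ∑ m ∈ f.support, ∑ n ∈ g.support,
      monomial (m + n) (coeff m f * coeff n g) := by
    conv_lhs => rw [f.as_sum, g.as_sum]
    rw [Finset.sum_mul_sum]
    refine Finset.sum_congr rfl fun m _ => Finset.sum_congr rfl fun n _ => ?_
    rw [monomial_mul]
  rw [e1, hv_sum, hv_sub φ E f y _ subset_rfl, hv_sub φ E' g y _ subset_rfl, Finset.sum_mul_sum]
  refine Finset.sum_congr rfl fun m hm => ?_
  rw [hv_sum]
  refine Finset.sum_congr rfl fun n hn => ?_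
  rw [hv_mono, T_add E E' y m n (fun i => (degreeOf_le_iff.1 (hf i)) m hm)
    (fun i => (degreeOf_le_iff.1 (hg i)) n hn), map_mul]
  ring

end one

theorem T_ren {S : Type} [CommRing S] {σ τ : Type} [Fintype σ] [Fintype τ] [DecidableEq τ]
    (ρ : σ → τ) (hρ : Function.Injective ρ) (E : τ → ℕ) (y : τ → Fin 2 → S) (m : σ →₀ ℕ) :
    T E y (Finsupp.mapDomain ρ m) = T (fun i => E (ρ i)) (fun i => y (ρ i)) m *
      ∏ t ∈ Finset.univ.filter (fun t => ∀ i, ρ i ≠ t), y t 1 ^ E t := by
  classical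
  unfold T
  rw [← Finset.prod_filter_mul_prod_filter_not Finset.univ (fun t => ∀ i, ρ i ≠ t), mul_comm]
  congr 1
  · have h1 : Finset.univ.filter (fun t => ¬ ∀ i, ρ i ≠ t) = Finset.univ.image ρ := by
      ext t
      simp only [Finset.mem_filter, Finset.mem_univ, true_and, Finset.mem_image]
      push Not
      rfl
    rw [h1, Finset.prod_image (fun a _ b _ h => hρ h)]
    refine Finset.prod_congr rfl fun i _ => ?_
    rw [Finsupp.mapDomain_apply hρ]
  · refine Finset.prod_congr rfl fun t ht => ?_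
    have ht' : t ∉ Set.range ρ := by
      rintro ⟨i, hi⟩
      exact (Finset.mem_filter.1 ht).2 i hi
    rw [Finsupp.mapDomain_of_notMem_range m t ht', pow_zero, one_mul, Nat.sub_zero]

theorem hv_ren {R S : Type} [CommRing R] [CommRing S] (φ : R →+* S) {σ τ : Type} [Fintype σ]
    [Fintype τ] [DecidableEq τ] (ρ : σ → τ) (E : τ → ℕ) (f : MvPolynomial σ R)
    (y : τ → Fin 2 → S) (hρ : Function.Injective ρ) :
    hv φ E (rename ρ f) y = hv φ (fun i => E (ρ i)) f (fun i => y (ρ i)) *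
      ∏ t ∈ Finset.univ.filter (fun t => ∀ i, ρ i ≠ t), y t 1 ^ E t := by
  classical
  have e1 : rename ρ f = ∑ m ∈ f.support, monomial (Finsupp.mapDomain ρ m) (coeff m f) := by
    conv_lhs => rw [f.as_sum]
    rw [map_sum]
    refine Finset.sum_congr rfl fun m _ => ?_
    rw [rename_monomial]
  rw [e1, hv_sum, hv_sub φ (fun i => E (ρ i)) f _ _ subset_rfl, Finset.sum_mul]
  refine Finset.sum_congr rfl fun m _ => ?_
  rw [hv_mono, T_ren ρ hρ, mul_assoc]

/-- **HVM** -/
theorem t : Pool.Agent.Helper3.TG.HVM :=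
  ⟨fun _ _ _ _ φ _ _ E E' f g y hf hg => hv_mul φ E E' f g y hf hg,
    fun _ _ _ _ φ _ _ _ _ _ ρ E f y hρ => hv_ren φ ρ E f y hρ⟩

end Pool.Agent.Helper99.TG.HVM
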